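import Pool.Agent.LRG.StmtsE

/-!
# Squad LRG, row REB: the regulator
-/

set_option autoImplicit false

open Polynomial NumberField NumberField.Units

noncomputable section

namespace Pool.Agent.LRG.H14

open Pool.Agent.LRG.E

theorem fac_rep {r₁ r₂ : ℕ} (k : Fa r₁ r₂) : fac (rep k) = k := by
  cases k <;> rfl

theorem mu_pos {r₁ r₂ : ℕ} (k : Fa r₁ r₂) : (0 : ℝ) < (mu k : ℕ) := by
  cases k <;> simp [mu]

theorem mu_le {r₁ r₂ : ℕ} (k : Fa r₁ r₂) : ((mu k : ℕ) : ℝ) ≤ 2 := by
  cases k <;> simp [mu]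

theorem reb : RebStmt := by
  classical
  intro pla unt lgb fct r₁ r₂ t x K _ _ θ e h ht h2
  obtain ⟨⟨v, hv⟩, -, -⟩ := pla r₁ r₂ t x K θ e h
  obtain ⟨u, hu⟩ := unt fct r₁ r₂ t x K θ e h
  obtain ⟨-, l2, l3⟩ := lgb r₁ r₂ t x h.rts ht h2
  have cF : Fintype.card (Fa r₁ r₂) = r₁ + r₂ := by simp [Fa]
  have cP : Fintype.card (InfinitePlace K) = r₁ + r₂ := by
    rw [← cF]; exact (Fintype.card_congr v).symm
  obtain ⟨k₀⟩ : Nonempty (Fa r₁ r₂) := Fintype.card_pos_iff.1 (by omega)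
  set w' : InfinitePlace K := v k₀ with hw'
  have cS : Fintype.card {w : InfinitePlace K // w ≠ w'} = r₁ + r₂ - 1 := by
    rw [Fintype.card_subtype_compl, Fintype.card_subtype_eq, cP]
  let f : {w : InfinitePlace K // w ≠ w'} ≃ Fin (rank K) :=
    Fintype.equivFinOfCardEq (by rw [cS, rank, cP])
  let U : Fin (rank K) → (𝓞 K)ˣ := fun i => u (v.symm (f.symm i).1)
  -- the values of the units at the places
  have val : ∀ (w : InfinitePlace K) (k : Fa r₁ r₂),
      w ((u k : 𝓞 K) : K) = dst t (x (rep (v.symm w))) k := by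
    intro w k
    have h1 : w = InfinitePlace.mk (e (rep (v.symm w))) := by
      rw [← (hv (v.symm w)).1, Equiv.apply_symm_apply]
    conv_lhs => rw [h1]
    rw [InfinitePlace.apply, hu]
  have mlt : ∀ w : InfinitePlace K, w.mult = mu (v.symm w) := by
    intro w
    rw [← (hv (v.symm w)).2, Equiv.apply_symm_apply]
  have pos : ∀ (w : InfinitePlace K) (k : Fa r₁ r₂), v k ≠ w →
      0 < (w.mult : ℝ) * Real.log (w ((u k : 𝓞 K) : K)) := by
    intro w k hk
    rw [val, mlt]
    refine mul_pos (mu_pos _) (l2 _ _ ?_)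
    rw [fac_rep]
    rintro rfl
    exact hk (Equiv.apply_symm_apply _ _)
  have bnd : ∀ (w : InfinitePlace K) (k : Fa r₁ r₂),
      |(w.mult : ℝ) * Real.log (w ((u k : 𝓞 K) : K))| ≤
        2 * ((r₁ + 2 * r₂ : ℕ) : ℝ) * Real.log (3 * bd r₁ r₂ * t) := by
    intro w k
    rw [val, mlt, abs_mul, abs_of_pos (mu_pos _), mul_assoc 2]
    exact mul_le_mul (mu_le _) (l3 _ _) (abs_nonneg _) (by norm_num)
  have hA : regOfFamily U = |(Matrix.of fun i w : {w : InfinitePlace K // w ≠ w'} =>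
      (w.1.mult : ℝ) * Real.log (w.1 ((u (v.symm i.1) : 𝓞 K) : K))).det| := by
    rw [regOfFamily_eq_det U w' f]
    simp only [U, Equiv.symm_apply_apply]
  set A : Matrix {w : InfinitePlace K // w ≠ w'} {w : InfinitePlace K // w ≠ w'} ℝ :=
    Matrix.of fun i w : {w : InfinitePlace K // w ≠ w'} =>
      (w.1.mult : ℝ) * Real.log (w.1 ((u (v.symm i.1) : 𝓞 K) : K)) with hAd
  have hne : A.det ≠ 0 := by
    apply det_ne_zero_of_sum_row_lt_diag
    intro i
    have hi : v (v.symm i.1) = i.1 := Equiv.apply_symm_apply _ _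
    have hs := sum_mult_mul_log (u (v.symm i.1))
    rw [Fintype.sum_eq_add_sum_subtype_ne _ w'] at hs
    have h0 : 0 < (w'.mult : ℝ) * Real.log (w' ((u (v.symm i.1) : 𝓞 K) : K)) :=
      pos w' _ (by rw [hi]; exact i.2)
    have hs2 : ∑ w : {w : InfinitePlace K // w ≠ w'}, A i w =
        A i i + ∑ w ∈ Finset.univ.erase i, A i w :=
      (Finset.add_sum_erase _ _ (Finset.mem_univ i)).symm
    have hs3 : ∑ w ∈ Finset.univ.erase i, ‖A i w‖ = ∑ w ∈ Finset.univ.erase i, A i w := by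
      refine Finset.sum_congr rfl fun w hw => ?_
      rw [Real.norm_eq_abs, abs_of_pos]
      refine pos w.1 _ ?_
      rw [hi]
      intro hh
      exact (Finset.ne_of_mem_erase hw) (Subtype.ext hh.symm)
    have hs4 : ∑ w : {w : InfinitePlace K // w ≠ w'}, A i w =
        - ((w'.mult : ℝ) * Real.log (w' ((u (v.symm i.1) : 𝓞 K) : K))) := by
      have : ∑ w : {w : InfinitePlace K // w ≠ w'}, A i w =
        ∑ w : {w : InfinitePlace K // w ≠ w'}, (w.1.mult : ℝ) *
          Real.log (w.1 ((u (v.symm i.1) : 𝓞 K) : K)) := rfl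
      rw [this]
      linarith
    have hd : 0 ≤ ∑ w ∈ Finset.univ.erase i, ‖A i w‖ :=
      Finset.sum_nonneg fun _ _ => norm_nonneg _
    have : ‖A i i‖ = -(A i i) := by
      rw [Real.norm_eq_abs, abs_of_neg]
      linarith
    rw [this]
    linarith
  have hreg : regOfFamily U ≠ 0 := by
    rw [hA]
    exact abs_ne_zero.2 hne
  have hle : regulator K ≤ regOfFamily U := by
    have h1 := regOfFamily_div_regulator U
    have hp := regulator_pos K
    have h3 : (1 : ℝ) ≤ regOfFamily U / regulator K := by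
      rw [h1]
      have : ((Subgroup.closure (Set.range U) ⊔ (torsion K)).index : ℝ) ≠ 0 := by
        rw [← h1]
        exact div_ne_zero hreg hp.ne'
      exact_mod_cast Nat.one_le_iff_ne_zero.2 (by exact_mod_cast this)
    rwa [le_div_iff₀ hp, one_mul] at h3
  refine hle.trans ?_
  rw [hA]
  have hdet := Matrix.det_le (A := A) (abv := AbsoluteValue.abs)
    (x := 2 * ((r₁ + 2 * r₂ : ℕ) : ℝ) * Real.log (3 * bd r₁ r₂ * t)) (fun i w => bnd w.1 _)
  rw [cS, nsmul_eq_mul] at hdet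
  exact hdet

end Pool.Agent.LRG.H14
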